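import Mathlib

set_option autoImplicit false

namespace Pool.Agent.Results.MP_c671ed_lc.NotAx

open FirstOrder FirstOrder.Language Polynomial Quaternion

/-- function symbols +, *, -, 0 of the language of rings without 1 -/
inductive NF : ℕ → Type
  | add : NF 2
  | mul : NF 2
  | neg : NF 1
  | zero : NF 0

/-- the language of rings without 1 -/
def L0 : FirstOrder.Language := { Functions := NF, Relations := fun _ => Empty }

/-- the standard interpretation of `L0` in a possibly non-unital ring -/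
@[reducible] def str0 (R : Type) [NonUnitalRing R] : L0.Structure R where
  funMap := fun {n} f =>
    match n, f with
    | _, NF.add => fun x => x 0 + x 1
    | _, NF.mul => fun x => x 0 * x 1
    | _, NF.neg => fun x => -x 0
    | _, NF.zero => fun _ => 0
  RelMap := fun {_} r => Empty.elim r

/-- unital reading -/
def SubdirectU (R : Type) [Ring R] : Prop :=
  ∃ (I : Type) (D : I → Type) (_ : ∀ i, DivisionRing (D i)) (φ : R →+* (∀ i, D i)),
    Function.Injective φ ∧ ∀ i, Function.Surjective (fun x => φ x i)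

/-- non-unital reading -/
def SubdirectN (R : Type) [NonUnitalRing R] : Prop :=
  ∃ (I : Type) (D : I → Type) (_ : ∀ i, DivisionRing (D i)) (φ : R →ₙ+* (∀ i, D i)),
    Function.Injective φ ∧ ∀ i, Function.Surjective (fun x => φ x i)

def P (R : Type) [Ring R] : Prop :=
  ∀ x : R, x ≠ 0 → ∃ f b : R, f ≠ 0 ∧ f * f = f ∧ (∀ y, f * y = y * f) ∧ x * b = f ∧ b * x = f

def Good {R : Type} [Ring R] (e : R) : Prop := e ≠ 0 ∧ e * e = e ∧ ∀ y, e * y = y * e

lemma step {R : Type} [Ring R] (hP : P R) (e : R) (he : Good e) (a : R) :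
    ∃ e', Good e' ∧ e' * e = e' ∧ (a * e' = 0 ∨ ∃ b, a * b = e' ∧ b * a = e') := by
  by_cases h : a * e = 0
  · exact ⟨e, he, he.2.1, Or.inl h⟩
  · obtain ⟨f, b, h0, h1, h2, h3, h4⟩ := hP _ h
    refine ⟨f, ⟨h0, h1, h2⟩, ?_, Or.inr ⟨e * b, ?_, ?_⟩⟩
    · rw [← h4, mul_assoc, mul_assoc, he.2.1]
    · rw [← mul_assoc, h3]
    · rw [mul_assoc, he.2.2, mul_assoc, h4]

lemma exists_quot {R : Type} [Ring R] [Countable R] (hP : P R) (x : R) (hx : x ≠ 0) :
    ∃ (D : Type) (_ : DivisionRing D) (ψ : R →+* D), Function.Surjective ψ ∧ ψ x ≠ 0 := by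
  obtain ⟨a, ha⟩ := exists_surjective_nat R
  obtain ⟨f0, b0, h0, h1, h2, h3, h4⟩ := hP x hx
  choose nx hn1 hn2 hn3 using step hP
  let e : ℕ → {e : R // Good e} := fun n =>
    Nat.rec ⟨f0, h0, h1, h2⟩ (fun n e => ⟨nx e.1 e.2 (a n), hn1 _ _ _⟩) n
  have he0 : (e 0).1 = f0 := rfl
  have hes : ∀ n, (e (n + 1)).1 = nx (e n).1 (e n).2 (a n) := fun n => rfl
  have hmono : ∀ n m, n ≤ m → (e m).1 * (e n).1 = (e m).1 := by
    intro n m h
    induction m, h using Nat.le_induction with
    | base => exact (e n).2.2.1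
    | succ m hm ih =>
      have := hn2 (e m).1 (e m).2 (a m)
      rw [← hes] at this
      rw [← this, mul_assoc, ih]
  have hz : ∀ (y : R) n m, n ≤ m → y * (e n).1 = 0 → y * (e m).1 = 0 := by
    intro y n m h hy
    rw [← hmono n m h, (e m).2.2.2, ← mul_assoc, hy, zero_mul]
  let M : Ideal R :=
    { carrier := {y | ∃ n, y * (e n).1 = 0}
      add_mem' := by
        rintro y z ⟨n, hn⟩ ⟨m, hm⟩
        refine ⟨max n m, ?_⟩
        rw [add_mul, hz y n _ (le_max_left _ _) hn, hz z m _ (le_max_right _ _) hm, add_zero]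
      zero_mem' := ⟨0, zero_mul _⟩
      smul_mem' := by
        rintro c y ⟨n, hn⟩
        exact ⟨n, by rw [smul_eq_mul, mul_assoc, hn, mul_zero]⟩ }
  have hM : ∀ y, y ∈ M ↔ ∃ n, y * (e n).1 = 0 := fun y => Iff.rfl
  have : M.IsTwoSided := ⟨by
    intro y z hy
    obtain ⟨n, hn⟩ := (hM y).1 hy
    refine (hM _).2 ⟨n, ?_⟩
    rw [mul_assoc, ← (e n).2.2.2, ← mul_assoc, hn, zero_mul]⟩
  have hxM : x ∉ M := by
    intro h
    obtain ⟨n, hn⟩ := (hM x).1 h
    apply (e n).2.1
    have h5 := hmono 0 n (Nat.zero_le n)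
    rw [(e n).2.2.2, he0, ← h4, mul_assoc, hn, mul_zero] at h5
    exact h5.symm
  have hone : ∀ n, Ideal.Quotient.mk M (e n).1 = 1 := by
    intro n
    rw [← map_one (Ideal.Quotient.mk M), Ideal.Quotient.eq]
    exact (hM _).2 ⟨n, by rw [sub_mul, (e n).2.2.1, one_mul, sub_self]⟩
  have hx0 : Ideal.Quotient.mk M x ≠ 0 := by
    rwa [Ne, Ideal.Quotient.eq_zero_iff_mem]
  have : Nontrivial (R ⧸ M) := ⟨⟨_, _, hx0⟩⟩
  have hu : ∀ c : R ⧸ M, IsUnit c ∨ c = 0 := by
    intro c
    obtain ⟨y, rfl⟩ := Ideal.Quotient.mk_surjective c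
    obtain ⟨n, rfl⟩ := ha y
    have := hn3 (e n).1 (e n).2 (a n)
    rw [← hes] at this
    rcases this with h | ⟨b, hb1, hb2⟩
    · right
      exact Ideal.Quotient.eq_zero_iff_mem.2 ((hM _).2 ⟨n + 1, h⟩)
    · left
      refine ⟨⟨Ideal.Quotient.mk M (a n), Ideal.Quotient.mk M b, ?_, ?_⟩, rfl⟩
      · have h7 := hone (n + 1)
        rw [← hb1, map_mul] at h7
        exact h7
      · have h7 := hone (n + 1)
        rw [← hb2, map_mul] at h7
        exact h7
  exact ⟨R ⧸ M, DivisionRing.ofIsUnitOrEqZero hu, Ideal.Quotient.mk M,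
    Ideal.Quotient.mk_surjective, hx0⟩

lemma partA {R : Type} [Ring R] [Countable R] (hP : P R) : SubdirectU R := by
  choose D inst ψ h1 h2 using exists_quot hP
  refine ⟨{x : R // x ≠ 0}, fun i => D i.1 i.2, fun i => inst i.1 i.2,
    RingHom.pi (fun i => ψ i.1 i.2), ?_, fun i => h1 i.1 i.2⟩
  rw [injective_iff_map_eq_zero]
  intro x hx
  by_contra h
  exact h2 x h (congrFun hx ⟨x, h⟩)

abbrev XX : Type := ℕ → Bool

lemma open_inf (U : Set XX) (hU : IsOpen U) (p : XX) (hp : p ∈ U) : U.Infinite := by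
  let s : ℕ → XX := fun n => Function.update p n (!p n)
  have hinj : Function.Injective s := by
    intro n m h
    by_contra hne
    have := congrFun h n
    simp [s, Function.update_of_ne hne] at this
  have ht : Filter.Tendsto s Filter.atTop (nhds p) := by
    rw [tendsto_pi_nhds]
    intro i
    apply tendsto_const_nhds.congr'
    filter_upwards [Filter.eventually_gt_atTop i] with n hn
    simp [s, Function.update_of_ne hn.ne]
  have hev := ht.eventually (hU.mem_nhds hp)
  have : {n | s n ∈ U}.Infinite := by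
    rw [← Nat.cofinite_eq_atTop] at hev
    exact Set.infinite_of_finite_compl hev
  exact Set.infinite_of_injOn_mapsTo hinj.injOn (fun n hn => hn) this

section Sheaf

variable {H : Type} [Ring H] (S : XX → Subring H)

def RR : Subring (XX → H) where
  carrier := {f | IsLocallyConstant f ∧ ∀ p, f p ∈ S p}
  mul_mem' := fun ha hb => ⟨ha.1.mul hb.1, fun p => (S p).mul_mem (ha.2 p) (hb.2 p)⟩
  add_mem' := fun ha hb => ⟨ha.1.add hb.1, fun p => (S p).add_mem (ha.2 p) (hb.2 p)⟩
  neg_mem' := fun ha => ⟨ha.1.neg, fun p => (S p).neg_mem (ha.2 p)⟩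
  one_mem' := ⟨IsLocallyConstant.const 1, fun p => (S p).one_mem⟩
  zero_mem' := ⟨IsLocallyConstant.const 0, fun p => (S p).zero_mem⟩

noncomputable def piece (V : Set XX) (hV : IsClopen V) (c : H) (hc : ∀ p ∈ V, c ∈ S p) : RR S :=
  ⟨V.indicator (fun _ => c), by
    refine ⟨?_, ?_⟩
    · rw [IsLocallyConstant.iff_exists_open]
      intro x
      by_cases hx : x ∈ V
      · exact ⟨V, hV.2, hx, fun y hy => by simp [hx, hy]⟩
      · refine ⟨Vᶜ, hV.1.isOpen_compl, hx, fun y hy => ?_⟩
        have hy' : y ∉ V := hy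
        simp [hx, hy']
    · intro p
      by_cases hp : p ∈ V
      · simpa [hp] using hc p hp
      · simp [hp]⟩

noncomputable def chi (V : Set XX) (hV : IsClopen V) : RR S :=
  piece S V hV 1 (fun p _ => (S p).one_mem)

def cst (c : H) (hc : ∀ p, c ∈ S p) : RR S := ⟨fun _ => c, IsLocallyConstant.const c, hc⟩

lemma shrink (hfin : ∀ c : H, {p | c ∉ S p}.Finite) (U : Set XX) (hU : IsOpen U) (c : H)
    (p : XX) (hp : p ∈ U) (hc : c ∈ S p) :
    ∃ V, IsClopen V ∧ p ∈ V ∧ V ⊆ U ∧ ∀ x ∈ V, c ∈ S x := by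
  obtain ⟨V, h1, h2, h3⟩ := compact_exists_isClopen_in_isOpen
    (hU.sdiff (hfin c).isClosed) (x := p) ⟨hp, fun h => h hc⟩
  exact ⟨V, h1, h2, fun x hx => (h3 hx).1, fun x hx => by
    by_contra h
    exact (h3 hx).2 h⟩

lemma RR_P [Nontrivial H] (hfin : ∀ c : H, {p | c ∉ S p}.Finite)
    (hdiv : ∀ c : H, c ≠ 0 → ∃ b, c * b = 1 ∧ b * c = 1) : P (RR S) := by
  intro x hx
  obtain ⟨p, hp⟩ : ∃ p, x.1 p ≠ 0 := by
    by_contra h
    push Not at h
    exact hx (Subtype.ext (funext h))
  obtain ⟨b, hb1, hb2⟩ := hdiv _ hp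
  have hU : IsOpen {y | x.1 y = x.1 p} := x.2.1.isOpen_fiber _
  obtain ⟨p', hp'1, hp'2⟩ := (open_inf _ hU p rfl).exists_notMem_finite (hfin b)
  have hp'3 : b ∈ S p' := by
    by_contra h
    exact hp'2 h
  obtain ⟨V, h1, h2, h3, h4⟩ := shrink S hfin _ hU b p' hp'1 hp'3
  refine ⟨chi S V h1, piece S V h1 b h4, ?_, ?_, ?_, ?_, ?_⟩
  · intro h
    have := congrFun (congrArg Subtype.val h) p'
    simp [chi, piece, h2] at this
  · apply Subtype.ext
    funext y
    by_cases hy : y ∈ V <;> simp [chi, piece, hy]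
  · intro z
    apply Subtype.ext
    funext y
    by_cases hy : y ∈ V <;> simp [chi, piece, hy]
  · apply Subtype.ext
    funext y
    by_cases hy : y ∈ V
    · have : x.1 y = x.1 p := h3 hy
      simp [chi, piece, hy, this, hb1]
    · simp [chi, piece, hy]
  · apply Subtype.ext
    funext y
    by_cases hy : y ∈ V
    · have : x.1 y = x.1 p := h3 hy
      simp [chi, piece, hy, this, hb2]
    · simp [chi, piece, hy]

lemma exists_pt {E : Type} [DivisionRing E] (ψ : RR S →+* E) :
    ∃ p, ∀ V (hV : IsClopen V), p ∈ V → ψ (chi S V hV) = 1 := by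
  by_contra hcon
  push Not at hcon
  have key : ∃ V, ∃ hV : IsClopen V, Set.univ ⊆ V ∧ ψ (chi S V hV) = 0 := by
    refine IsCompact.induction_on (isCompact_univ (X := XX))
      (p := fun s => ∃ V, ∃ hV : IsClopen V, s ⊆ V ∧ ψ (chi S V hV) = 0) ?_ ?_ ?_ ?_
    · refine ⟨∅, isClopen_empty, subset_rfl, ?_⟩
      have : chi S ∅ isClopen_empty = 0 := by
        apply Subtype.ext
        funext y
        simp [chi, piece]
      rw [this, map_zero]
    · rintro s t hst ⟨V, hV, h1, h2⟩
      exact ⟨V, hV, hst.trans h1, h2⟩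
    · rintro s t ⟨V, hV, h1, h2⟩ ⟨W, hW, h3, h4⟩
      refine ⟨V ∪ W, hV.union hW, Set.union_subset_union h1 h3, ?_⟩
      have : chi S (V ∪ W) (hV.union hW) =
          chi S V hV + chi S W hW - chi S V hV * chi S W hW := by
        apply Subtype.ext
        funext y
        by_cases hy : y ∈ V <;> by_cases hy' : y ∈ W <;> simp [chi, piece, hy, hy']
      rw [this, map_sub, map_add, map_mul, h2, h4]
      simp
    · intro p _
      obtain ⟨V, hV, hp, h⟩ := hcon p
      refine ⟨V, mem_nhdsWithin_of_mem_nhds (hV.2.mem_nhds hp), V, hV, subset_rfl, ?_⟩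
      have h2 : chi S V hV * chi S V hV = chi S V hV := by
        apply Subtype.ext
        funext y
        by_cases hy : y ∈ V <;> simp [chi, piece, hy]
      have h3 : ψ (chi S V hV) * (ψ (chi S V hV) - 1) = 0 := by
        rw [mul_sub, ← map_mul, h2, mul_one, sub_self]
      rcases mul_eq_zero.1 h3 with h4 | h4
      · exact h4
      · exact absurd (sub_eq_zero.1 h4) h
  obtain ⟨V, hV, h1, h2⟩ := key
  have : chi S V hV = 1 := by
    apply Subtype.ext
    funext y
    simp [chi, piece, h1 (Set.mem_univ y)]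
  rw [this, map_one] at h2
  exact one_ne_zero h2

lemma no_quot (hfin : ∀ c : H, {p | c ∉ S p}.Finite)
    (hc : ∀ p, ∃ α β j j' δ : H, (∀ x, α ∈ S x) ∧ (∀ x, β ∈ S x) ∧ (∀ x, j ∈ S x) ∧
      (∀ x, j' ∈ S x) ∧ (∀ x, δ ∈ S x) ∧ j * α = β * j ∧ j * j' = 1 ∧ (α - β) * δ = 1 ∧
      ∀ c ∈ S p, ∃ w ∈ S p, (α * β * c - 1) * w = 1)
    {E : Type} [DivisionRing E] (ψ : RR S →+* E) (hψ : Function.Surjective ψ) : False := by
  obtain ⟨p, hp⟩ := exists_pt S ψ
  obtain ⟨α, β, j, j', δ, hα, hβ, hj, hj', hδ, h1, h2, h3, h4⟩ := hc p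
  have e1 : ψ (cst S j hj) * ψ (cst S α hα) = ψ (cst S β hβ) * ψ (cst S j hj) := by
    rw [← map_mul, ← map_mul]
    congr 1
    apply Subtype.ext
    funext y
    simpa [cst] using h1
  have e2 : ψ (cst S j hj) * ψ (cst S j' hj') = 1 := by
    rw [← map_mul, ← map_one ψ]
    congr 1
    apply Subtype.ext
    funext y
    simpa [cst] using h2
  have e3 : (ψ (cst S α hα) - ψ (cst S β hβ)) * ψ (cst S δ hδ) = 1 := by
    rw [← map_sub, ← map_mul, ← map_one ψ]
    congr 1
    apply Subtype.ext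
    funext y
    simpa [cst] using h3
  have hj0 : ψ (cst S j hj) ≠ 0 := left_ne_zero_of_mul_eq_one e2
  have hq : ψ (cst S α hα) * ψ (cst S β hβ) ≠ 0 := by
    intro h
    have : ψ (cst S α hα) = 0 ∧ ψ (cst S β hβ) = 0 := by
      rcases mul_eq_zero.1 h with h | h
      · refine ⟨h, ?_⟩
        rw [h, mul_zero] at e1
        exact (mul_eq_zero.1 e1.symm).resolve_right hj0
      · refine ⟨?_, h⟩
        rw [h, zero_mul] at e1
        exact (mul_eq_zero.1 e1).resolve_left hj0
    rw [this.1, this.2] at e3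
    simp at e3
  obtain ⟨v, hv⟩ := hψ (ψ (cst S α hα) * ψ (cst S β hβ))⁻¹
  obtain ⟨w, hw1, hw2⟩ := h4 (v.1 p) (v.2.2 p)
  have hU : IsOpen {y | v.1 y = v.1 p} := v.2.1.isOpen_fiber _
  obtain ⟨V, g1, g2, g3, g4⟩ := shrink S hfin _ hU w p rfl hw1
  have e4 : (cst S α hα * cst S β hβ * v - 1) * piece S V g1 w g4 = chi S V g1 := by
    apply Subtype.ext
    funext y
    by_cases hy : y ∈ V
    · have : v.1 y = v.1 p := g3 hy
      simpa [chi, piece, cst, hy, this] using hw2
    · simp [chi, piece, hy]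
  have e5 := congrArg ψ e4
  rw [hp V g1 g2, map_mul, map_sub, map_mul, map_mul, hv, mul_inv_cancel₀ hq, map_one] at e5
  simp at e5

end Sheaf

abbrev KK : Type := RatFunc ℝ

noncomputable def zz (p : XX) : ℂ := (Cardinal.cantorFunction (1 / 3) p : ℝ) + Complex.I

lemma zz_inj : Function.Injective zz := by
  intro p q h
  apply Cardinal.cantorFunction_injective (c := 1 / 3) (by norm_num) (by norm_num)
  have := congrArg Complex.re h
  simpa [zz] using this

noncomputable def OO (p : XX) : Subring KK where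
  carrier := {r | ∃ g f : ℝ[X], aeval (zz p) g ≠ 0 ∧ algebraMap _ KK g * r = algebraMap _ KK f}
  mul_mem' := by
    rintro a b ⟨g, f, h1, h2⟩ ⟨g', f', h3, h4⟩
    refine ⟨g * g', f * f', by simp [h1, h3], ?_⟩
    rw [map_mul, map_mul, ← h2, ← h4]; ring
  add_mem' := by
    rintro a b ⟨g, f, h1, h2⟩ ⟨g', f', h3, h4⟩
    refine ⟨g * g', f * g' + f' * g, by simp [h1, h3], ?_⟩
    rw [map_add, map_mul, map_mul, map_mul, ← h2, ← h4]; ring
  neg_mem' := by
    rintro a ⟨g, f, h1, h2⟩
    refine ⟨g, -f, h1, ?_⟩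
    rw [map_neg, ← h2]; ring
  one_mem' := ⟨1, 1, by simp, by simp⟩
  zero_mem' := ⟨1, 0, by simp, by simp⟩

lemma poly_mem (p : XX) (f : ℝ[X]) : algebraMap _ KK f ∈ OO p := ⟨1, f, by simp, by simp⟩

lemma clear (r : KK) : ∃ g f : ℝ[X], g ≠ 0 ∧ algebraMap _ KK g * r = algebraMap _ KK f := by
  refine ⟨r.denom, r.num, r.denom_ne_zero, ?_⟩
  have h := RatFunc.num_div_denom r
  have h0 : algebraMap _ KK r.denom ≠ 0 := RatFunc.algebraMap_ne_zero r.denom_ne_zero
  rw [div_eq_iff h0] at h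
  rw [h]; ring

lemma OO_fin (r : KK) : {p | r ∉ OO p}.Finite := by
  obtain ⟨g, f, h1, h2⟩ := clear r
  have : {p | aeval (zz p) g = 0}.Finite := by
    have h3 : (g.rootSet ℂ).Finite := Polynomial.rootSet_finite g ℂ
    refine (h3.preimage zz_inj.injOn).subset ?_
    intro p hp
    exact (Polynomial.mem_rootSet_of_ne h1).2 hp
  refine this.subset ?_
  intro p hp
  by_contra h
  exact hp ⟨g, f, h, h2⟩

lemma sq4 (a b c d : KK) (h : a ^ 2 + b ^ 2 + c ^ 2 + d ^ 2 = 0) : a = 0 := by
  obtain ⟨g1, f1, h1, e1⟩ := clear a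
  obtain ⟨g2, f2, h2, e2⟩ := clear b
  obtain ⟨g3, f3, h3, e3⟩ := clear c
  obtain ⟨g4, f4, h4, e4⟩ := clear d
  have key : (f1 * g2 * g3 * g4) ^ 2 + (g1 * f2 * g3 * g4) ^ 2 + (g1 * g2 * f3 * g4) ^ 2 +
      (g1 * g2 * g3 * f4) ^ 2 = 0 := by
    apply RatFunc.algebraMap_injective ℝ
    simp only [map_add, map_pow, map_mul, map_zero]
    rw [← e1, ← e2, ← e3, ← e4]
    linear_combination (algebraMap _ KK g1 * algebraMap _ KK g2 * algebraMap _ KK g3 *
      algebraMap _ KK g4) ^ 2 * h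
  have k2 : f1 * g2 * g3 * g4 = 0 := by
    apply Polynomial.funext
    intro x
    have := congrArg (eval x) key
    simp only [eval_add, eval_pow, eval_zero] at this
    rw [eval_zero]
    nlinarith [sq_nonneg (eval x (f1 * g2 * g3 * g4)), sq_nonneg (eval x (g1 * f2 * g3 * g4)),
      sq_nonneg (eval x (g1 * g2 * f3 * g4)), sq_nonneg (eval x (g1 * g2 * g3 * f4))]
  have k3 : f1 = 0 := by simpa [h2, h3, h4] using k2
  rw [k3, map_zero] at e1
  exact (mul_eq_zero.1 e1).resolve_left (RatFunc.algebraMap_ne_zero h1)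

abbrev HH : Type := ℍ[KK]

noncomputable def SS (p : XX) : Subring HH where
  carrier := {c | c.re ∈ OO p ∧ c.imI ∈ OO p ∧ c.imJ ∈ OO p ∧ c.imK ∈ OO p}
  mul_mem' := by
    rintro a b ⟨h1, h2, h3, h4⟩ ⟨g1, g2, g3, g4⟩
    refine ⟨?_, ?_, ?_, ?_⟩
    · rw [Quaternion.re_mul]
      exact sub_mem (sub_mem (sub_mem (mul_mem h1 g1) (mul_mem h2 g2)) (mul_mem h3 g3))
        (mul_mem h4 g4)
    · rw [Quaternion.imI_mul]
      exact sub_mem (add_mem (add_mem (mul_mem h1 g2) (mul_mem h2 g1)) (mul_mem h3 g4))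
        (mul_mem h4 g3)
    · rw [Quaternion.imJ_mul]
      exact add_mem (add_mem (sub_mem (mul_mem h1 g3) (mul_mem h2 g4)) (mul_mem h3 g1))
        (mul_mem h4 g2)
    · rw [Quaternion.imK_mul]
      exact add_mem (sub_mem (add_mem (mul_mem h1 g4) (mul_mem h2 g3)) (mul_mem h3 g2))
        (mul_mem h4 g1)
  add_mem' := by
    rintro a b ⟨h1, h2, h3, h4⟩ ⟨g1, g2, g3, g4⟩
    exact ⟨add_mem h1 g1, add_mem h2 g2, add_mem h3 g3, add_mem h4 g4⟩
  neg_mem' := by
    rintro a ⟨h1, h2, h3, h4⟩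
    exact ⟨neg_mem h1, neg_mem h2, neg_mem h3, neg_mem h4⟩
  one_mem' := ⟨one_mem _, zero_mem _, zero_mem _, zero_mem _⟩
  zero_mem' := ⟨zero_mem _, zero_mem _, zero_mem _, zero_mem _⟩

lemma SS_fin (c : HH) : {p | c ∉ SS p}.Finite := by
  refine ((((OO_fin c.re).union (OO_fin c.imI)).union (OO_fin c.imJ)).union
    (OO_fin c.imK)).subset ?_
  intro p hp
  by_contra h
  simp only [Set.mem_union, Set.mem_ofPred_eq, not_or, not_not] at h
  exact hp ⟨h.1.1.1, h.1.1.2, h.1.2, h.2⟩

def mk4 (a b c d : KK) : HH := ⟨a, b, c, d⟩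

@[simp] lemma mk4_re (a b c d : KK) : (mk4 a b c d).re = a := rfl
@[simp] lemma mk4_imI (a b c d : KK) : (mk4 a b c d).imI = b := rfl
@[simp] lemma mk4_imJ (a b c d : KK) : (mk4 a b c d).imJ = c := rfl
@[simp] lemma mk4_imK (a b c d : KK) : (mk4 a b c d).imK = d := rfl

noncomputable def inv' (c : HH) (n : KK) : HH :=
  mk4 (n * c.re) (-(n * c.imI)) (-(n * c.imJ)) (-(n * c.imK))

lemma inv'_spec (c : HH) (n : KK)
    (h : n * (c.re ^ 2 + c.imI ^ 2 + c.imJ ^ 2 + c.imK ^ 2) = 1) :
    c * inv' c n = 1 ∧ inv' c n * c = 1 := by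
  constructor
  · ext
    · simp [inv']; linear_combination h
    · simp [inv']; ring
    · simp [inv']; ring
    · simp [inv']; ring
  · ext
    · simp [inv']; linear_combination h
    · simp [inv']; ring
    · simp [inv']; ring
    · simp [inv']; ring

lemma HH_div (c : HH) (hc : c ≠ 0) : ∃ b, c * b = 1 ∧ b * c = 1 := by
  have h : c.re ^ 2 + c.imI ^ 2 + c.imJ ^ 2 + c.imK ^ 2 ≠ 0 := by
    intro h
    apply hc
    ext
    · exact sq4 _ _ _ _ h
    · exact sq4 c.imI c.re c.imJ c.imK (by linear_combination h)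
    · exact sq4 c.imJ c.re c.imI c.imK (by linear_combination h)
    · exact sq4 c.imK c.re c.imI c.imJ (by linear_combination h)
  exact ⟨_, inv'_spec c _ (inv_mul_cancel₀ h)⟩

lemma unit_loc (p : XX) (q : ℝ[X]) (hq : aeval (zz p) q = 0) (s : KK) (hs : s ∈ OO p) :
    ∃ n ∈ OO p, n * (1 + algebraMap _ KK q * s) = 1 := by
  obtain ⟨g, f, h1, h2⟩ := hs
  have h3 : aeval (zz p) (g + q * f) ≠ 0 := by simpa [hq] using h1
  have h4 : g + q * f ≠ 0 := by
    intro h; rw [h] at h3; simp at h3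
  have h5 : algebraMap _ KK (g + q * f) ≠ 0 := RatFunc.algebraMap_ne_zero h4
  refine ⟨algebraMap _ KK g / algebraMap _ KK (g + q * f), ⟨g + q * f, g, h3, ?_⟩, ?_⟩
  · field_simp
  · rw [div_mul_eq_mul_div, div_eq_one_iff_eq h5, map_add, map_mul, ← h2]; ring

lemma HH_c (p : XX) : ∃ α β j j' δ : HH, (∀ x, α ∈ SS x) ∧ (∀ x, β ∈ SS x) ∧ (∀ x, j ∈ SS x) ∧
      (∀ x, j' ∈ SS x) ∧ (∀ x, δ ∈ SS x) ∧ j * α = β * j ∧ j * j' = 1 ∧ (α - β) * δ = 1 ∧
      ∀ c ∈ SS p, ∃ w ∈ SS p, (α * β * c - 1) * w = 1 := by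
  set t0 : ℝ[X] := X - C (Cardinal.cantorFunction (1 / 3) p) with ht0
  set t : KK := algebraMap _ KK t0 with ht
  set h : KK := algebraMap _ KK (C (1 / 2 : ℝ)) with hh
  have h2 : 2 * h = 1 := by
    have : (2 : ℝ[X]) * C (1 / 2 : ℝ) = 1 := by
      rw [show (2 : ℝ[X]) = C 2 from rfl, ← C_mul]; norm_num
    have := congrArg (algebraMap _ KK) this
    rw [map_mul, map_one, map_ofNat] at this
    exact this
  have hq : aeval (zz p) (t0 ^ 2 + 1) = 0 := by
    simp [ht0, zz]
  refine ⟨mk4 t 1 0 0, mk4 t (-1) 0 0, mk4 0 0 1 0, mk4 0 0 (-1) 0, mk4 0 (-h) 0 0,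
    fun x => ⟨poly_mem _ _, one_mem _, zero_mem _, zero_mem _⟩,
    fun x => ⟨poly_mem _ _, neg_mem (one_mem _), zero_mem _, zero_mem _⟩,
    fun x => ⟨zero_mem _, zero_mem _, one_mem _, zero_mem _⟩,
    fun x => ⟨zero_mem _, zero_mem _, neg_mem (one_mem _), zero_mem _⟩,
    fun x => ⟨zero_mem _, neg_mem (poly_mem _ _), zero_mem _, zero_mem _⟩, ?_, ?_, ?_, ?_⟩
  · ext <;> simp
  · ext <;> simp
  · ext
    · simp; linear_combination h2
    all_goals simp
  · rintro c hc
    obtain ⟨c1, c2, c3, c4⟩ := hc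
    have hqm : t ^ 2 + 1 ∈ OO p := add_mem (pow_mem (poly_mem _ _) 2) (one_mem _)
    have hs : (t ^ 2 + 1) * (c.re ^ 2 + c.imI ^ 2 + c.imJ ^ 2 + c.imK ^ 2) - (c.re + c.re) ∈
        OO p :=
      sub_mem (mul_mem hqm (add_mem (add_mem (add_mem (pow_mem c1 2) (pow_mem c2 2))
        (pow_mem c3 2)) (pow_mem c4 2))) (add_mem c1 c1)
    obtain ⟨n, hn1, hn2⟩ := unit_loc p _ hq _ hs
    rw [map_add, map_pow, map_one, ← ht] at hn2
    have hw : (mk4 t 1 0 0 * mk4 t (-1) 0 0 * c - 1 : HH) =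
        mk4 ((t ^ 2 + 1) * c.re - 1) ((t ^ 2 + 1) * c.imI) ((t ^ 2 + 1) * c.imJ)
          ((t ^ 2 + 1) * c.imK) := by
      ext <;> simp [pow_two]
    rw [hw]
    refine ⟨inv' _ n, ?_, (inv'_spec _ n ?_).1⟩
    · exact ⟨mul_mem hn1 (sub_mem (mul_mem hqm c1) (one_mem _)),
        neg_mem (mul_mem hn1 (mul_mem hqm c2)), neg_mem (mul_mem hn1 (mul_mem hqm c3)),
        neg_mem (mul_mem hn1 (mul_mem hqm c4))⟩
    · simp only [mk4_re, mk4_imI, mk4_imJ, mk4_imK]
      linear_combination hn2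

abbrev BigR : Type := RR SS

lemma big_P : P BigR := RR_P SS SS_fin HH_div

lemma big_not : ¬ SubdirectN BigR := by
  rintro ⟨I, D, inst, φ, h1, h2⟩
  have h10 : (1 : BigR) ≠ 0 := by
    intro h
    have := congrFun (congrArg Subtype.val h) (fun _ => true)
    simp at this
  have h3 : φ 1 ≠ 0 := by
    intro h
    exact h10 (h1 (by rw [h, map_zero]))
  obtain ⟨i, _⟩ : ∃ i, φ 1 i ≠ 0 := by
    by_contra h
    push Not at h
    exact h3 (funext h)
  have h4 : φ 1 i = 1 := by
    obtain ⟨y, hy⟩ := h2 i 1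
    have hy' : φ y i = 1 := hy
    have : φ (1 * y) i = φ 1 i * φ y i := by rw [map_mul]; rfl
    rw [one_mul, hy', mul_one] at this
    exact this.symm
  let ψ : BigR →+* D i :=
    { toFun := fun x => φ x i
      map_one' := h4
      map_mul' := fun x y => by rw [map_mul]; rfl
      map_zero' := by rw [map_zero]; rfl
      map_add' := fun x y => by rw [map_add]; rfl }
  exact no_quot SS SS_fin HH_c ψ (h2 i)

lemma UN {R : Type} [Ring R] (h : SubdirectU R) : SubdirectN R := by
  obtain ⟨I, D, inst, φ, h1, h2⟩ := h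
  exact ⟨I, D, inst, φ.toNonUnitalRingHom, h1, h2⟩

noncomputable def phiP : Language.ring.Sentence :=
  ∀' (∼((&0) =' 0) ⟹ ∃' ∃' (∼((&1) =' 0) ⊓ (((&1) * (&1)) =' (&1)) ⊓
    (∀' (((&1) * (&3)) =' ((&3) * (&1)))) ⊓ (((&0) * (&2)) =' (&1)) ⊓ (((&2) * (&0)) =' (&1))))

lemma phiP_iff (R : Type) [Ring R] [FirstOrder.Ring.CompatibleRing R] : R ⊨ phiP ↔ P R := by
  simp [phiP, P, Sentence.Realize, Formula.Realize, Fin.snoc, and_assoc]

lemma ee_of {A E B : Type} [Language.ring.Structure A] [Language.ring.Structure E]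
    [Language.ring.Structure B] (e : A ≃ E)
    (h : ∀ (n : ℕ) (f : Language.ring.Functions n) (x : Fin n → A),
      e (Structure.funMap f x) = Structure.funMap f (e ∘ x)) (h2 : E ≅[Language.ring] B) :
    A ≅[Language.ring] B := by
  let g : Language.ring.Equiv A E :=
    { toEquiv := e
      map_fun' := fun {n} f x => h n f x
      map_rel' := fun {n} f => by cases f }
  exact (StrongHomClass.elementarilyEquivalent g).trans h2

set_option linter.unusedSimpArgs false in
lemma core (B : Type) [Ring B] (hB : P B) (hN : ¬ SubdirectN B) : ∃ (A : Type) (_ : Ring A), SubdirectU A ∧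
    ∀ T : Language.ring.Theory,
      @Theory.Model _ A (FirstOrder.Ring.compatibleRingOfRing A).toStructure T ↔
      @Theory.Model _ B (FirstOrder.Ring.compatibleRingOfRing B).toStructure T := by
  let _ := FirstOrder.Ring.compatibleRingOfRing B
  have hinf : Infinite B := by
    by_contra h
    have : Finite B := not_infinite_iff_finite.1 h
    exact hN (UN (partA hB))
  obtain ⟨E, -, hE⟩ := exists_elementarySubstructure_card_eq Language.ring (∅ : Set B)
    Cardinal.aleph0.{0} le_rfl (by simp) (by simp)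
    (by simpa using Cardinal.infinite_iff.1 hinf)
  let A : Subring B :=
    { carrier := E
      mul_mem' := fun {a b} ha hb => by
        have := E.toSubstructure.fun_mem FirstOrder.Ring.mulFunc ![a, b] (by
          intro i; fin_cases i
          · exact ha
          · exact hb)
        simp only [FirstOrder.Ring.CompatibleRing.funMap_add,
          FirstOrder.Ring.CompatibleRing.funMap_mul, FirstOrder.Ring.CompatibleRing.funMap_neg,
          FirstOrder.Ring.CompatibleRing.funMap_one,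
          FirstOrder.Ring.CompatibleRing.funMap_zero] at this
        exact this
      add_mem' := fun {a b} ha hb => by
        have := E.toSubstructure.fun_mem FirstOrder.Ring.addFunc ![a, b] (by
          intro i; fin_cases i
          · exact ha
          · exact hb)
        simp only [FirstOrder.Ring.CompatibleRing.funMap_add,
          FirstOrder.Ring.CompatibleRing.funMap_mul, FirstOrder.Ring.CompatibleRing.funMap_neg,
          FirstOrder.Ring.CompatibleRing.funMap_one,
          FirstOrder.Ring.CompatibleRing.funMap_zero] at this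
        exact this
      neg_mem' := fun {a} ha => by
        have := E.toSubstructure.fun_mem FirstOrder.Ring.negFunc ![a] (by
          intro i; fin_cases i
          exact ha)
        simp only [FirstOrder.Ring.CompatibleRing.funMap_add,
          FirstOrder.Ring.CompatibleRing.funMap_mul, FirstOrder.Ring.CompatibleRing.funMap_neg,
          FirstOrder.Ring.CompatibleRing.funMap_one,
          FirstOrder.Ring.CompatibleRing.funMap_zero] at this
        exact this
      one_mem' := by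
        have := E.toSubstructure.fun_mem FirstOrder.Ring.oneFunc ![] (fun i => i.elim0)
        simp only [FirstOrder.Ring.CompatibleRing.funMap_add,
          FirstOrder.Ring.CompatibleRing.funMap_mul, FirstOrder.Ring.CompatibleRing.funMap_neg,
          FirstOrder.Ring.CompatibleRing.funMap_one,
          FirstOrder.Ring.CompatibleRing.funMap_zero] at this
        exact this
      zero_mem' := by
        have := E.toSubstructure.fun_mem FirstOrder.Ring.zeroFunc ![] (fun i => i.elim0)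
        simp only [FirstOrder.Ring.CompatibleRing.funMap_zero] at this
        exact this }
  let i2 := FirstOrder.Ring.compatibleRingOfRing A
  have hee : A ≅[Language.ring] B :=
    @ee_of A E B i2.toStructure E.inducedStructure _ (Equiv.refl _)
      (fun n f x => by cases f <;> rfl) E.elementarilyEquivalent
  have hc : Countable A := by
    have : Cardinal.mk E = Cardinal.aleph0 := by simpa using hE
    exact Cardinal.mk_le_aleph0_iff.1 this.le
  refine ⟨A, inferInstance, partA ?_, fun T => hee.theory_model_iff⟩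
  exact (phiP_iff A).1 ((hee.realize_sentence phiP).2 ((phiP_iff B).2 hB))

def lh : L0 →ᴸ Language.ring where
  onFunction := fun {n} f =>
    match n, f with
    | _, NF.add => ringFunc.add
    | _, NF.mul => ringFunc.mul
    | _, NF.neg => ringFunc.neg
    | _, NF.zero => ringFunc.zero
  onRelation := fun {_} r => Empty.elim r

lemma lh_model (R : Type) [Ring R] (T : L0.Theory) :
    @Theory.Model _ R (FirstOrder.Ring.compatibleRingOfRing R).toStructure (lh.onTheory T) ↔
      @Theory.Model _ R (str0 R) T := by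
  let _ := FirstOrder.Ring.compatibleRingOfRing R
  let _ := str0 R
  have : lh.IsExpansionOn R :=
    { map_onFunction := fun {n} f x => by cases f <;> rfl
      map_onRelation := fun {n} r => by cases r }
  exact LHom.onTheory_model lh T

theorem result :
    (¬ ∃ T : Language.ring.Theory, ∀ (R : Type) [Ring R],
      (@Theory.Model _ R (FirstOrder.Ring.compatibleRingOfRing R).toStructure T ↔
        SubdirectU R)) ∧
    (¬ ∃ T : L0.Theory, ∀ (R : Type) [NonUnitalRing R],
      (@Theory.Model _ R (str0 R) T ↔ SubdirectN R)) := by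
  obtain ⟨A, inst, hA, hT⟩ := core BigR big_P big_not
  constructor
  · rintro ⟨T, h⟩
    exact big_not (UN ((h BigR).1 ((hT T).1 ((h A).2 hA))))
  · rintro ⟨T, h⟩
    exact big_not ((h BigR).1 ((lh_model BigR T).1 ((hT _).1 ((lh_model A T).2
      ((h A).2 (UN hA))))))

end Pool.Agent.Results.MP_c671ed_lc.NotAx
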